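import Mathlib

/-! The kernel min is positive semidefinite (race copy for helper50, MP_87e96d_pr). -/

namespace Pool.Agent.L7h60.AG

open MeasureTheory Set

theorem frm (pi : Measure ℝ) [IsProbabilityMeasure pi] (h0 : ∀ᵐ u ∂pi, 0 ≤ u) (f : ℝ → ℝ)
    (hf : Measurable f)
    (hi : Integrable (Function.uncurry fun s u : ℝ => f s * (min s u * f u)) (pi.prod pi))
    (hf1 : Integrable f pi) : 0 ≤ ∫ s, ∫ u, f s * (min s u * f u) ∂pi ∂pi := by
  classical
  set vol : Measure ℝ := volume.restrict (Ioi 0) with hvol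
  -- the integrand on pairs and times
  let H : (ℝ × ℝ) × ℝ → ℝ := fun z =>
    (Iio z.1.1).indicator (fun _ => (1 : ℝ)) z.2 * (Iio z.1.2).indicator (fun _ => (1 : ℝ)) z.2 *
      (f z.1.1 * f z.1.2)
  have hHm : Measurable H := by
    have a1 : Measurable fun z : (ℝ × ℝ) × ℝ => (Iio z.1.1).indicator (fun _ => (1 : ℝ)) z.2 := by
      have : (fun z : (ℝ × ℝ) × ℝ => (Iio z.1.1).indicator (fun _ => (1 : ℝ)) z.2) =
          {z : (ℝ × ℝ) × ℝ | z.2 < z.1.1}.indicator fun _ => 1 := by
        ext z; simp [indicator]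
      rw [this]
      exact measurable_const.indicator (measurableSet_lt measurable_snd (by fun_prop))
    have a2 : Measurable fun z : (ℝ × ℝ) × ℝ => (Iio z.1.2).indicator (fun _ => (1 : ℝ)) z.2 := by
      have : (fun z : (ℝ × ℝ) × ℝ => (Iio z.1.2).indicator (fun _ => (1 : ℝ)) z.2) =
          {z : (ℝ × ℝ) × ℝ | z.2 < z.1.2}.indicator fun _ => 1 := by
        ext z; simp [indicator]
      rw [this]
      exact measurable_const.indicator (measurableSet_lt measurable_snd (by fun_prop))
    exact (a1.mul a2).mul ((hf.comp (by fun_prop)).mul (hf.comp (by fun_prop)))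
  have hprod : ∀ s u t : ℝ, (Iio s).indicator (fun _ => (1 : ℝ)) t *
      (Iio u).indicator (fun _ => (1 : ℝ)) t = (Iio (min s u)).indicator (fun _ => (1 : ℝ)) t := by
    intro s u t
    simp only [indicator, mem_Iio, lt_min_iff]
    by_cases h1 : t < s <;> by_cases h2 : t < u <;> simp [h1, h2]
  -- the inner integral in t
  have hInt1 : ∀ m c : ℝ, 0 ≤ m →
      Integrable (fun t => (Iio m).indicator (fun _ => (1 : ℝ)) t * c) vol ∧
      ∫ t, (Iio m).indicator (fun _ => (1 : ℝ)) t * c ∂vol = m * c := by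
    intro m c hm
    have e : (fun t => (Iio m).indicator (fun _ => (1 : ℝ)) t) = (Iio m).indicator fun _ => 1 := rfl
    have hfin : vol (Iio m) = ENNReal.ofReal m := by
      rw [hvol, Measure.restrict_apply measurableSet_Iio]
      have : Iio m ∩ Ioi 0 = Ioo 0 m := by ext x; simp [and_comm]
      rw [this, Real.volume_Ioo]; simp
    have hI : Integrable ((Iio m).indicator fun _ => (1 : ℝ)) vol := by
      rw [integrable_indicator_iff measurableSet_Iio]
      refine integrableOn_const ?_
      rw [hfin]; exact ENNReal.ofReal_ne_top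
    refine ⟨hI.mul_const c, ?_⟩
    rw [integral_mul_const, integral_indicator measurableSet_Iio, integral_const]
    simp [Measure.real, hfin, hm]
  have hae : ∀ᵐ z ∂(pi.prod pi), 0 ≤ z.1 ∧ 0 ≤ z.2 := by
    have b1 : ∀ᵐ z ∂(pi.prod pi), 0 ≤ z.1 := Measure.quasiMeasurePreserving_fst.ae h0
    have b2 : ∀ᵐ z ∂(pi.prod pi), 0 ≤ z.2 := Measure.quasiMeasurePreserving_snd.ae h0
    filter_upwards [b1, b2] with z h1 h2 using ⟨h1, h2⟩
  have hHI : Integrable H ((pi.prod pi).prod vol) := by
    rw [integrable_prod_iff hHm.aestronglyMeasurable]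
    refine ⟨?_, ?_⟩
    · filter_upwards [hae] with z hz
      have := (hInt1 (min z.1 z.2) (f z.1 * f z.2) (le_min hz.1 hz.2)).1
      refine this.congr (Filter.Eventually.of_forall fun t => ?_)
      show _ = _ * _ * _
      rw [hprod]
    · refine hi.norm.congr ?_
      filter_upwards [hae] with z hz
      have hm : 0 ≤ min z.1 z.2 := le_min hz.1 hz.2
      have := (hInt1 (min z.1 z.2) ‖f z.1 * f z.2‖ hm).2
      have e : ∀ t, ‖H (z, t)‖ =
          (Iio (min z.1 z.2)).indicator (fun _ => (1 : ℝ)) t * ‖f z.1 * f z.2‖ := by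
        intro t
        show ‖_ * _ * _‖ = _
        rw [hprod, norm_mul]
        congr 1
        simp only [indicator]
        split_ifs <;> simp
      simp only [e]
      rw [this]
      simp only [Function.uncurry, norm_mul, Real.norm_eq_abs, abs_of_nonneg hm]
      ring
  have key1 : ∫ s, ∫ u, f s * (min s u * f u) ∂pi ∂pi = ∫ z, H z ∂((pi.prod pi).prod vol) := by
    rw [integral_prod _ hHI]
    refine (integral_prod _ hi).symm.trans ?_
    apply integral_congr_ae
    filter_upwards [hae] with z hz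
    have hm : 0 ≤ min z.1 z.2 := le_min hz.1 hz.2
    have := (hInt1 (min z.1 z.2) (f z.1 * f z.2) hm).2
    have e : ∀ t, H (z, t) =
        (Iio (min z.1 z.2)).indicator (fun _ => (1 : ℝ)) t * (f z.1 * f z.2) := by
      intro t
      show _ * _ * _ = _
      rw [hprod]
    simp only [e]
    rw [this]
    simp only [Function.uncurry]
    ring
  rw [key1, integral_prod_symm _ hHI]
  apply integral_nonneg
  intro t
  have e : ∀ z : ℝ × ℝ, H (z, t) =
      ((Iio z.1).indicator (fun _ => (1 : ℝ)) t * f z.1) *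
      ((Iio z.2).indicator (fun _ => (1 : ℝ)) t * f z.2) := by
    intro z
    show _ * _ * _ = _
    ring
  simp only [e]
  have := integral_prod_mul (μ := pi) (ν := pi)
    (fun s : ℝ => (Iio s).indicator (fun _ => (1 : ℝ)) t * f s)
    (fun s : ℝ => (Iio s).indicator (fun _ => (1 : ℝ)) t * f s)
  rw [this]
  exact mul_self_nonneg _

end Pool.Agent.L7h60.AG
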